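import Pool.Agent.V1120.Peb.Solve

/-!
# Pebble motion on trees: instances whose shortest solutions have length of order `N² log N`

Pebbles sit on distinct vertices of a tree; a move shifts one pebble to an adjacent unoccupied
vertex.  If the number `n` of pebbles and the number `k` of vertices of a longest isthmus satisfy
`n + k < N`, every configuration can be reached from every other one in `O(N² log N)` moves.  We
show that `N² log N` is the right order: there are instances with arbitrarily large `N` that need at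
least `c N² log N` moves.

The tree is a path with `2 n + 1` vertices with a pendant leaf at its middle vertex; the `n`
pebbles fill one half of the path, and their order has to be reversed.
-/

namespace Pool.Agent.Results.MP_3627f5_co.NSquareLogN

open Pool.Agent.V1120 Finset

/-- A configuration of `n` pebbles on `V`: every pebble has a vertex, and different pebbles have
different vertices. -/
abbrev Config (V : Type) (n : ℕ) := Fin n ↪ V

/-- One pebble `i` moves from its vertex to an adjacent unoccupied vertex; all other pebbles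
stay. -/
def Move {V : Type} {n : ℕ} (G : SimpleGraph V) (p q : Config V n) : Prop :=
  ∃ i, G.Adj (p i) (q i) ∧ (∀ j, p j ≠ q i) ∧ ∀ j, j ≠ i → q j = p j

/-- `f` can be transformed into `g` by a sequence of `m` moves. -/
def Solution {V : Type} {n : ℕ} (G : SimpleGraph V) (f g : Config V n) (m : ℕ) : Prop :=
  ∃ s : ℕ → Config V n, s 0 = f ∧ s m = g ∧ ∀ t < m, Move G (s t) (s (t + 1))

/-- The minimum number `ℓ(f, g)` of moves in a sequence transforming `f` into `g`. -/
noncomputable def minMoves {V : Type} {n : ℕ} (G : SimpleGraph V) (f g : Config V n) : ℕ :=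
  sInf {m | Solution G f g m}

/-- `x` is a cut vertex: the graph without `x` is disconnected. -/
def IsCutVertex {V : Type} (G : SimpleGraph V) (x : V) : Prop :=
  ¬ (G.induce {y | y ≠ x}).Preconnected

/-- An isthmus: a path all of whose edges are bridges, all of whose vertices are cut vertices, and
all of whose inner vertices have degree two. -/
structure IsIsthmus {V : Type} (G : SimpleGraph V) {u v : V} (p : G.Walk u v) : Prop where
  isPath : p.IsPath
  bridge : ∀ e ∈ p.edges, G.IsBridge e
  cut : ∀ x ∈ p.support, IsCutVertex G x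
  deg : ∀ i, 0 < i → i < p.length → (G.neighborSet (p.getVert i)).ncard = 2

/-- The number of vertices of a longest isthmus. -/
noncomputable def isthmusNumber {V : Type} (G : SimpleGraph V) : ℕ :=
  sSup {d | ∃ (u v : V) (p : G.Walk u v), IsIsthmus G p ∧ d = p.length + 1}

lemma isthmusNumber_le {L : ℕ} (hL : 1 ≤ L) : isthmusNumber (Peb.tree L) ≤ L + 1 := by
  apply csSup_le'
  rintro d ⟨u, v, p, hp, rfl⟩
  exact Peb.isthmus_le hL p ⟨hp.isPath, hp.bridge, fun x hx => hp.cut x hx, hp.deg⟩

/-- The process of coordinates of a solution. -/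
def proc {L n m : ℕ} (s : ℕ → Config (Peb.Vx L) n)
    (hs : ∀ t < m, Move (Peb.tree L) (s t) (s (t + 1))) : Peb.Proc n m where
  x t i := Peb.pos L (s t i)
  step t ht := by
    obtain ⟨i, h1, _, h3⟩ := hs t ht
    exact ⟨i, Peb.pos_step h1, fun j hj => by rw [h3 j hj]⟩
  inj t _ i j hij h := Peb.pos_inj (fun hc => hij ((s t).injective hc)) h
  two t _ := by
    classical
    have h1 : (univ.filter fun i => Peb.pos L (s t i) = 0).card ≤
        ({none, some ⟨L, by omega⟩} : Finset (Peb.Vx L)).card := by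
      apply card_le_card_of_injOn (fun i => s t i)
      · intro i hi
        simp only [coe_filter, mem_univ, true_and, Set.mem_ofPred_eq] at hi
        simpa using Peb.pos_zero hi
      · exact (s t).injective.injOn
    exact h1.trans card_le_two

/-- Every solution of the reversal instance is long. -/
lemma lower {r m : ℕ} {L : ℕ} (hL : 24 * 2 ^ r = L)
    (h : Solution (Peb.tree L) (Peb.A hL.le 0 (Nat.zero_le _)) (Peb.A hL.le (24 * 2 ^ r) le_rfl)
      m) : (r + 1) * (3 * 4 ^ r) ≤ m := by
  obtain ⟨s, h0, hm, hs⟩ := h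
  apply (proc s hs).total rfl
  have key : ∀ i j : Fin (24 * 2 ^ r), i < j →
      ∃ t ≤ m, (proc s hs).x t i = 0 ∧ (proc s hs).x t j = 0 := by
    intro i j hij
    by_contra hc
    push Not at hc
    have h1 : (proc s hs).x 0 i < (proc s hs).x 0 j := by
      show Peb.pos L (s 0 i) < Peb.pos L (s 0 j)
      rw [h0, Peb.pos_A, Peb.pos_A]
      have : (i : ℕ) < j := hij
      simp only [Peb.rk]
      simp only [not_lt_zero, if_false]
      omega
    have h2 := (proc s hs).order (Nat.zero_le m) le_rfl hij.ne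
      (fun t _ ht => fun h3 => hc t ht h3.1 h3.2) h1
    have h3 : (proc s hs).x m j < (proc s hs).x m i := by
      show Peb.pos L (s m j) < Peb.pos L (s m i)
      rw [hm, Peb.pos_A, Peb.pos_A]
      have h4 : (i : ℕ) < j := hij
      simp only [Peb.rk]
      rw [if_pos j.2, if_pos i.2]
      omega
    exact lt_asymm h2 h3
  intro i j hij
  rcases lt_or_gt_of_ne hij with h | h
  · exact key i j h
  · obtain ⟨t, h1, h2, h3⟩ := key j i h
    exact ⟨t, h1, h3, h2⟩

/-- **There are a constant `c > 0` and instances with arbitrarily large `N` whose shortest solution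
has at least `c N² log N` moves.** -/
theorem result : ∃ c : ℝ, 0 < c ∧ ∀ N₀ : ℕ,
    ∃ (V : Type) (_ : Fintype V) (G : SimpleGraph V) (n : ℕ) (f g : Config V n),
      N₀ ≤ Fintype.card V ∧ G.IsTree ∧ n + isthmusNumber G < Fintype.card V ∧
      (∃ m, Solution G f g m) ∧
      c * (Fintype.card V : ℝ) ^ 2 * Real.log (Fintype.card V) ≤ (minMoves G f g : ℝ) := by
  refine ⟨1 / 5000, by norm_num, fun N₀ => ?_⟩
  set r := N₀ with hr
  obtain ⟨L, hL⟩ : ∃ L : ℕ, 24 * 2 ^ r = L := ⟨_, rfl⟩
  have h2r : 1 ≤ 2 ^ r := Nat.one_le_two_pow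
  have hrr : r < 2 ^ r := Nat.lt_two_pow_self
  have hex : ∃ m, Solution (Peb.tree L) (Peb.A hL.le 0 (Nat.zero_le _))
      (Peb.A hL.le (24 * 2 ^ r) le_rfl) m :=
    Peb.solution_of_reach (Peb.reach_all hL.le _ le_rfl)
  refine ⟨Peb.Vx L, inferInstance, Peb.tree L, 24 * 2 ^ r, Peb.A hL.le 0 (Nat.zero_le _),
    Peb.A hL.le (24 * 2 ^ r) le_rfl, ?_, Peb.isTree L, ?_, hex, ?_⟩
  · rw [Peb.card_Vx]; omega
  · have := isthmusNumber_le (L := L) (by omega)
    rw [Peb.card_Vx]; omega
  · have h1 : (r + 1) * (3 * 4 ^ r) ≤ minMoves (Peb.tree L) (Peb.A hL.le 0 (Nat.zero_le _))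
        (Peb.A hL.le (24 * 2 ^ r) le_rfl) := lower hL (Nat.sInf_mem hex)
    have h2 : ((r : ℝ) + 1) * (3 * 4 ^ r) ≤ (minMoves (Peb.tree L)
        (Peb.A hL.le 0 (Nat.zero_le _)) (Peb.A hL.le (24 * 2 ^ r) le_rfl) : ℝ) := by
      exact_mod_cast h1
    refine le_trans ?_ h2
    rw [Peb.card_Vx]
    have hN : (((2 * L + 2 : ℕ)) : ℝ) ≤ 50 * 2 ^ r := by
      have : 2 * L + 2 ≤ 50 * 2 ^ r := by omega
      exact_mod_cast this
    have hN0 : (0 : ℝ) < ((2 * L + 2 : ℕ) : ℝ) := by positivity
    have hN1 : (1 : ℝ) ≤ ((2 * L + 2 : ℕ) : ℝ) := by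
      have : 1 ≤ 2 * L + 2 := by omega
      exact_mod_cast this
    have hlog : Real.log ((2 * L + 2 : ℕ) : ℝ) ≤ 6 * ((r : ℝ) + 1) := by
      have h3 : Real.log ((2 * L + 2 : ℕ) : ℝ) ≤ Real.log (2 ^ (6 + r)) := by
        apply Real.log_le_log hN0
        refine hN.trans ?_
        rw [pow_add]
        have : (0 : ℝ) < 2 ^ r := by positivity
        nlinarith
      rw [Real.log_pow] at h3
      have h4 : Real.log 2 ≤ 1 := by
        have := Real.log_le_sub_one_of_pos (show (0 : ℝ) < 2 by norm_num)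
        linarith
      have h5 : ((6 + r : ℕ) : ℝ) * Real.log 2 ≤ ((6 + r : ℕ) : ℝ) * 1 :=
        mul_le_mul_of_nonneg_left h4 (by positivity)
      have h7 : ((6 + r : ℕ) : ℝ) = 6 + (r : ℝ) := by push_cast; ring
      rw [h7] at h3 h5
      have h6 : (0 : ℝ) ≤ r := Nat.cast_nonneg r
      linarith
    have hlog0 : 0 ≤ Real.log ((2 * L + 2 : ℕ) : ℝ) := Real.log_nonneg hN1
    have hsq : (((2 * L + 2 : ℕ)) : ℝ) ^ 2 ≤ 2500 * 4 ^ r := by
      have h3 : (((2 * L + 2 : ℕ)) : ℝ) ^ 2 ≤ (50 * 2 ^ r) ^ 2 :=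
        pow_le_pow_left₀ hN0.le hN 2
      have h4 : ((50 : ℝ) * 2 ^ r) ^ 2 = 2500 * 4 ^ r := by
        rw [mul_pow, ← pow_mul, mul_comm r 2, pow_mul]
        norm_num
      rwa [h4] at h3
    have h4r : (0 : ℝ) < 4 ^ r := by positivity
    calc 1 / 5000 * (((2 * L + 2 : ℕ)) : ℝ) ^ 2 * Real.log ((2 * L + 2 : ℕ) : ℝ)
        ≤ 1 / 5000 * (2500 * 4 ^ r) * (6 * ((r : ℝ) + 1)) := by
          apply mul_le_mul _ hlog hlog0 (by positivity)
          exact mul_le_mul_of_nonneg_left hsq (by norm_num)
      _ = ((r : ℝ) + 1) * (3 * 4 ^ r) := by ring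

end Pool.Agent.Results.MP_3627f5_co.NSquareLogN
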